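import Pool.Agent.Lib.MP_ed6410_an.Suff

namespace Pool.Agent.Results.MP_ed6410_an.OptimalOrderIff

open Pool.MP_ed6410

/-- For all integers `0 ≤ r < k`, the spline spaces `S_k^r(Δ_h)` on the four-direction mesh have
the optimal approximation order `k + 1` if and only if `r ≤ 1`, or `k ≥ 2 r + 2`, or `k = 2 r + 1`
with `r` odd. The same condition decides the order `k + 1` for the class of `C^N` functions, for
every `N` with `k + 1 ≤ N ≤ ∞`. -/
theorem result (k r : ℕ) (h : r < k) :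
    (HasApproxOrder k r (k + 1) ↔ (r ≤ 1 ∨ 2 * r + 2 ≤ k ∨ (k = 2 * r + 1 ∧ Odd r))) ∧
    (∀ N : ℕ∞, (k + 1 : ℕ) ≤ N →
      (ApproxOrderFor N k r (k + 1) ↔ (r ≤ 1 ∨ 2 * r + 2 ≤ k ∨ (k = 2 * r + 1 ∧ Odd r)))) :=
  hasApproxOrder_iff k r h

end Pool.Agent.Results.MP_ed6410_an.OptimalOrderIff
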